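import Pool.Agent.Work.MP_a392d0_lc.Interface

/-!
# Block FC: an infinite run gives a filling of the bins
-/

namespace Pool.Agent.Work.MP_a392d0_lc.FC

open Pool.Agent.Work.MP_a392d0_lc Finset

/-! ### Roles and positions -/

lemma role_false {M blk : ℕ} :
    role M blk = some false ↔ (blk % 4 = 0 ∧ blk ≤ 4 * M) ∨ blk = 4 * M + 2 := by
  unfold role
  split_ifs <;> simp <;> omega

lemma role_true {M blk : ℕ} :
    role M blk = some true ↔ blk % 4 = 1 ∧ blk ≤ 4 * M + 1 := by
  unfold role
  split_ifs <;> simp <;> omega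

/-- The bin with given half-period, block, cell. -/
def pos (n M h blk cell : ℕ) : ℕ := h * ((4 * M + 5) * (2 * n)) + (blk * (2 * n) + cell)

variable {n M h blk cell : ℕ}

lemma lt_hp (hb : blk < 4 * M + 5) (hc : cell < 2 * n) :
    blk * (2 * n) + cell < (4 * M + 5) * (2 * n) := by
  have : (blk + 1) * (2 * n) ≤ (4 * M + 5) * (2 * n) := Nat.mul_le_mul_right _ hb
  rw [Nat.succ_mul] at this
  omega

lemma pos_div (hb : blk < 4 * M + 5) (hc : cell < 2 * n) :
    pos n M h blk cell / ((4 * M + 5) * (2 * n)) = h := by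
  have h1 := lt_hp hb hc
  unfold pos
  rw [add_comm, Nat.add_mul_div_right _ _ (by omega), Nat.div_eq_of_lt h1, zero_add]

lemma pos_mod (hb : blk < 4 * M + 5) (hc : cell < 2 * n) :
    pos n M h blk cell % ((4 * M + 5) * (2 * n)) = blk * (2 * n) + cell := by
  have h1 := lt_hp hb hc
  unfold pos
  rw [add_comm, Nat.add_mul_mod_self_right, Nat.mod_eq_of_lt h1]

lemma pos_blk (hc : cell < 2 * n) : (blk * (2 * n) + cell) / (2 * n) = blk := by
  rw [add_comm, Nat.add_mul_div_right _ _ (by omega), Nat.div_eq_of_lt hc, zero_add]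

lemma pos_cell (hc : cell < 2 * n) : (blk * (2 * n) + cell) % (2 * n) = cell := by
  rw [add_comm, Nat.add_mul_mod_self_right, Nat.mod_eq_of_lt hc]

/-- Every bin is of this form. -/
lemma exists_pos (hn : 1 ≤ n) (x : ℕ) :
    ∃ h blk cell, blk < 4 * M + 5 ∧ cell < 2 * n ∧ x = pos n M h blk cell := by
  have hG : 0 < 2 * n := by omega
  have hH : 0 < (4 * M + 5) * (2 * n) := Nat.mul_pos (by omega) hG
  refine ⟨x / ((4 * M + 5) * (2 * n)), x % ((4 * M + 5) * (2 * n)) / (2 * n),
    x % ((4 * M + 5) * (2 * n)) % (2 * n), ?_, Nat.mod_lt _ hG, ?_⟩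
  · exact Nat.div_lt_of_lt_mul (by rw [mul_comm (2 * n)]; exact Nat.mod_lt _ hH)
  · unfold pos
    rw [Nat.div_add_mod', Nat.div_add_mod']

/-- A criterion for the window property. -/
lemma window {P : ℕ → Prop} {W : ℕ} (h0 : ∃ y, y < W ∧ P y)
    (h1 : ∀ y, P y → ∃ z, y < z ∧ z ≤ y + W ∧ P z) (x : ℕ) : ∃ y, x ≤ y ∧ y < x + W ∧ P y := by
  induction x with
  | zero => obtain ⟨y, hy, hP⟩ := h0; exact ⟨y, Nat.zero_le _, by omega, hP⟩
  | succ x ih =>
    obtain ⟨y, hy1, hy2, hP⟩ := ih
    by_cases h : x + 1 ≤ y
    · exact ⟨y, h, by omega, hP⟩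
    · obtain ⟨z, hz1, hz2, hz⟩ := h1 y hP
      exact ⟨z, by omega, by omega, hz⟩

/-! ### The filling -/

/-- Is the half-period odd? -/
def od (h : ℕ) : Bool := decide (h % 2 = 1)

lemma od_succ (h : ℕ) : od (h + 1) = !od h := by
  unfold od
  rcases Nat.mod_two_eq_zero_or_one h with h1 | h1
  · have : (h + 1) % 2 = 1 := by omega
    simp [h1, this]
  · have : (h + 1) % 2 = 0 := by omega
    simp [h1, this]

/-- The state shown by a block. -/
def idx (M h blk : ℕ) (r : Bool) : ℕ := if r then h + 1 else if blk = 4 * M + 2 then h + 2 else h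

/-- Parity of a cell. -/
def pb (cell : ℕ) : Bool := decide (cell % 2 = 1)

lemma pb_cell (i : ℕ) (b : Bool) : pb (2 * i + b.toNat) = b := by
  cases b
  · simp [pb]
  · have : (2 * i + 1) % 2 = 1 := by omega
    simp [pb, this]

lemma div_cell (i : ℕ) (b : Bool) : (2 * i + b.toNat) / 2 = i := by
  cases b <;> simp <;> omega

lemma cell_eq (cell : ℕ) : cell = 2 * (cell / 2) + (pb cell).toNat := by
  rcases Nat.mod_two_eq_zero_or_one cell with h1 | h1
  · simp [pb, h1]; omega
  · simp [pb, h1]; omega

section

variable (hn : 1 ≤ n) (M : ℕ) (s : ℕ → ℕ → Bool) (L : ℕ → ℕ → Lit)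

/-- The track item in a cell. -/
def titem (h blk cell : ℕ) (r : Bool) : FI n :=
  .trk (xor r (od h)) (xor (pb cell) (s (idx M h blk r) (cell / 2)))
    ⟨cell / 2 % n, Nat.mod_lt _ hn⟩

/-- The probe is in this cell. -/
def qc (h blk cell : ℕ) (r : Bool) : Prop :=
  (blk < 4 * M ∧ L h (blk / 4) = (r, cell / 2, pb cell)) ∨ (blk = 4 * M + 1 ∧ cell = 0)

instance (h blk cell : ℕ) (r : Bool) : Decidable (qc M L h blk cell r) := by
  unfold qc; infer_instance

/-- The contents of a cell. -/
def cont (h blk cell : ℕ) : Finset (FI n) :=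
  match role M blk with
  | none => ∅
  | some r => if qc M L h blk cell r then {titem hn M s h blk cell r, .q}
    else {titem hn M s h blk cell r}

/-- The filling. -/
def CC (x : ℕ) : Finset (FI n) :=
  cont hn M s L (x / ((4 * M + 5) * (2 * n)))
    (x % ((4 * M + 5) * (2 * n)) / (2 * n)) (x % ((4 * M + 5) * (2 * n)) % (2 * n))

lemma CC_pos (hb : blk < 4 * M + 5) (hc : cell < 2 * n) :
    CC hn M s L (pos n M h blk cell) = cont hn M s L h blk cell := by
  unfold CC
  rw [pos_div hb hc, pos_mod hb hc, pos_blk hc, pos_cell hc]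

lemma mem_trk {c big : Bool} {i : Fin n} :
    FI.trk c big i ∈ cont hn M s L h blk cell ↔
      ∃ r, role M blk = some r ∧ titem hn M s h blk cell r = FI.trk c big i := by
  unfold cont
  rcases hr : role M blk with _ | r
  · simp
  · simp only [Option.some.injEq, exists_eq_left']
    split_ifs
    · simp only [mem_insert, mem_singleton, reduceCtorEq, or_false]
      exact eq_comm
    · simp only [mem_singleton]
      exact eq_comm

lemma mem_q :
    FI.q ∈ cont hn M s L h blk cell ↔ ∃ r, role M blk = some r ∧ qc M L h blk cell r := by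
  unfold cont
  rcases hr : role M blk with _ | r
  · simp
  · simp only [Option.some.injEq, exists_eq_left']
    split_ifs with h
    · simp [h]
    · simp [h, titem]

/-- Where the track item `(c, big, i)` is in block `blk` of half-period `h`, if this block has
role `r`. -/
def tcell (h blk : ℕ) (r big : Bool) (i : Fin n) : ℕ :=
  2 * (i : ℕ) + (xor big (s (idx M h blk r) i)).toNat

lemma tcell_lt (r big : Bool) (i : Fin n) : tcell M s h blk r big i < 2 * n := by
  unfold tcell
  have := i.2
  have := Bool.toNat_le (xor big (s (idx M h blk r) i))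
  omega

lemma titem_eq {c big : Bool} {i : Fin n} {r : Bool} (hc : cell < 2 * n) :
    titem hn M s h blk cell r = FI.trk c big i ↔
      c = xor r (od h) ∧ cell = tcell M s h blk r big i := by
  unfold titem tcell
  rw [FI.trk.injEq]
  have hlt : cell / 2 < n := by omega
  constructor
  · rintro ⟨h1, h2, h3⟩
    have h3' : cell / 2 = (i : ℕ) := by
      have := congrArg Fin.val h3
      simpa [Nat.mod_eq_of_lt hlt] using this
    refine ⟨h1.symm, ?_⟩
    rw [h3'] at h2
    rw [← h2, ← h3']
    conv_lhs => rw [cell_eq cell]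
    simp
  · rintro ⟨h1, h2⟩
    have h3 : cell / 2 = (i : ℕ) := by rw [h2, div_cell]
    refine ⟨h1.symm, ?_, ?_⟩
    · rw [h3, h2, pb_cell]
      simp
    · apply Fin.ext
      simp only [Nat.mod_eq_of_lt hlt]
      exact h3

lemma trk_mem_iff {c big : Bool} {i : Fin n} (hb : blk < 4 * M + 5) (hc : cell < 2 * n) :
    FI.trk c big i ∈ CC hn M s L (pos n M h blk cell) ↔
      ∃ r, role M blk = some r ∧ c = xor r (od h) ∧ cell = tcell M s h blk r big i := by
  rw [CC_pos hn M s L hb hc, mem_trk]
  simp only [titem_eq hn M s hc]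

lemma trk_window (c big : Bool) (i : Fin n) (x : ℕ) :
    ∃ y, x ≤ y ∧ y < x + 4 * (2 * n) ∧ FI.trk c big i ∈ CC hn M s L y := by
  revert x
  apply window
  · cases c
    · refine ⟨pos n M 0 0 (tcell M s 0 0 false big i), ?_, ?_⟩
      · have := tcell_lt M s (h := 0) (blk := 0) false big i
        unfold pos; omega
      · rw [trk_mem_iff hn M s L (by omega) (tcell_lt M s _ _ _)]
        exact ⟨false, role_false.mpr (Or.inl ⟨rfl, Nat.zero_le _⟩), rfl, rfl⟩
    · refine ⟨pos n M 0 1 (tcell M s 0 1 true big i), ?_, ?_⟩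
      · have := tcell_lt M s (h := 0) (blk := 1) true big i
        unfold pos; omega
      · rw [trk_mem_iff hn M s L (by omega) (tcell_lt M s _ _ _)]
        exact ⟨true, role_true.mpr ⟨rfl, by omega⟩, rfl, rfl⟩
  · intro y hy
    obtain ⟨h, blk, cell, hb, hc, rfl⟩ := exists_pos (M := M) hn y
    rw [trk_mem_iff hn M s L hb hc] at hy
    obtain ⟨r, hr, hcl, rfl⟩ := hy
    have key : ∀ h' blk' r', blk' < 4 * M + 5 → role M blk' = some r' → c = xor r' (od h') →
        pos n M h blk (tcell M s h blk r big i) < pos n M h' blk' (tcell M s h' blk' r' big i) →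
        pos n M h' blk' (tcell M s h' blk' r' big i) ≤
          pos n M h blk (tcell M s h blk r big i) + 4 * (2 * n) →
        ∃ z, pos n M h blk (tcell M s h blk r big i) < z ∧
          z ≤ pos n M h blk (tcell M s h blk r big i) + 4 * (2 * n) ∧
          FI.trk c big i ∈ CC hn M s L z := by
      intro h' blk' r' h1 h2 h3 h4 h5
      exact ⟨_, h4, h5, (trk_mem_iff hn M s L h1 (tcell_lt M s _ _ _)).mpr ⟨r', h2, h3, rfl⟩⟩
    have hsame : ∀ h' blk' r', idx M h' blk' r' = idx M h blk r →
        tcell M s h' blk' r' big i = tcell M s h blk r big i := by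
      intro h' blk' r' h1
      unfold tcell
      rw [h1]
    cases r
    · rcases role_false.mp hr with ⟨h4, hle⟩ | heq
      · rcases hle.lt_or_eq with hlt | heq
        · refine key h (blk + 4) false (by omega) (role_false.mpr (Or.inl ⟨by omega, by omega⟩))
            hcl ?_ ?_
          all_goals
            rw [hsame h (blk + 4) false (by
              unfold idx
              rw [if_neg (by simp), if_neg (by omega), if_neg (by simp), if_neg (by omega)])]
            unfold pos
            rw [add_mul blk 4]
            omega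
        · refine key h (blk + 2) false (by omega) (role_false.mpr (Or.inr (by omega))) hcl ?_ ?_
          all_goals
            have e1 := Bool.toNat_le (xor big (s (idx M h blk false) i))
            have e2 := Bool.toNat_le (xor big (s (idx M h (blk + 2) false) i))
            unfold pos tcell
            rw [add_mul blk 2]
            omega
      · refine key (h + 1) 1 true (by omega) (role_true.mpr ⟨rfl, by omega⟩)
          (by rw [hcl, od_succ]; simp) ?_ ?_
        all_goals
          rw [hsame (h + 1) 1 true (by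
            unfold idx
            rw [if_pos rfl, if_neg (by simp), if_pos heq])]
          unfold pos
          rw [heq, add_mul h 1]
          have e3 : (4 * M + 5) * (2 * n) = (4 * M + 2) * (2 * n) + 3 * (2 * n) := by ring
          omega
    · obtain ⟨h4, hle⟩ := role_true.mp hr
      rcases hle.lt_or_eq with hlt | heq
      · refine key h (blk + 4) true (by omega) (role_true.mpr ⟨by omega, by omega⟩)
            hcl ?_ ?_
        all_goals
          rw [hsame h (blk + 4) true (by unfold idx; rw [if_pos rfl, if_pos rfl])]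
          unfold pos
          rw [add_mul blk 4]
          omega
      · refine key (h + 1) 0 false (by omega) (role_false.mpr (Or.inl ⟨rfl, by omega⟩))
          (by rw [hcl, od_succ]; simp) ?_ ?_
        all_goals
          rw [hsame (h + 1) 0 false (by
            unfold idx
            rw [if_pos rfl, if_neg (by simp), if_neg (by omega)])]
          unfold pos
          rw [heq, add_mul h 1]
          have e3 : (4 * M + 5) * (2 * n) = (4 * M + 1) * (2 * n) + 4 * (2 * n) := by ring
          omega

/-! ### The probe -/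

variable {M}

lemma q_mem_check {j : ℕ} (hj : j < M) (hL : (L h j).2.1 < n) :
    FI.q ∈ CC hn M s L (pos n M h (4 * j + (L h j).1.toNat)
      (2 * (L h j).2.1 + (L h j).2.2.toNat)) := by
  have e1 := Bool.toNat_le (L h j).1
  have e2 := Bool.toNat_le (L h j).2.2
  rw [CC_pos hn M s L (by omega) (by omega), mem_q]
  refine ⟨(L h j).1, ?_, Or.inl ⟨by omega, ?_⟩⟩
  · cases h1 : (L h j).1
    · exact role_false.mpr (Or.inl ⟨by simp, by simp; omega⟩)
    · exact role_true.mpr ⟨by simp, by simp; omega⟩
  · have : (4 * j + (L h j).1.toNat) / 4 = j := by omega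
    rw [this, pb_cell, div_cell]

lemma q_mem_dummy : FI.q ∈ CC hn M s L (pos n M h (4 * M + 1) 0) := by
  rw [CC_pos hn M s L (by omega) (by omega), mem_q]
  exact ⟨true, role_true.mpr ⟨by omega, le_rfl⟩, Or.inr ⟨rfl, rfl⟩⟩

lemma q_window (hM : 1 ≤ M) (hL : ∀ h j, j < M → (L h j).2.1 < n) (x : ℕ) :
    ∃ y, x ≤ y ∧ y < x + 6 * (2 * n) ∧ FI.q ∈ CC hn M s L y := by
  revert x
  apply window
  · refine ⟨_, ?_, q_mem_check hn s L (h := 0) (j := 0) hM (hL 0 0 hM)⟩
    have e1 := Bool.toNat_le (L 0 0).1
    have e2 := Bool.toNat_le (L 0 0).2.2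
    have e3 := hL 0 0 hM
    have e4 : (4 * 0 + (L 0 0).1.toNat) * (2 * n) ≤ 1 * (2 * n) :=
      Nat.mul_le_mul_right _ (by omega)
    unfold pos
    omega
  · intro y hy
    obtain ⟨h, blk, cell, hb, hc, rfl⟩ := exists_pos (M := M) hn y
    rw [CC_pos hn M s L hb hc, mem_q] at hy
    obtain ⟨r, hr, ⟨hlt, hq⟩ | ⟨heq, hq⟩⟩ := hy
    · have hblk : blk = 4 * (blk / 4) + r.toNat := by
        cases r
        · have := role_false.mp hr
          simp only [Bool.toNat_false]
          omega
        · have := role_true.mp hr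
          simp only [Bool.toNat_true]
          omega
      generalize blk / 4 = j at hblk hq
      have e0 := Bool.toNat_le r
      have hjM : j < M := by omega
      have hr0 : blk * (2 * n) = 4 * j * (2 * n) + r.toNat * (2 * n) := by rw [hblk, add_mul]
      have hr1 : r.toNat * (2 * n) ≤ 1 * (2 * n) := Nat.mul_le_mul_right _ e0
      by_cases hj : j + 1 < M
      · refine ⟨_, ?_, ?_, q_mem_check hn s L (h := h) hj (hL h _ hj)⟩
        all_goals
          have e1 := Bool.toNat_le (L h (j + 1)).1
          have e2 := Bool.toNat_le (L h (j + 1)).2.2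
          have e3 := hL h (j + 1) hj
          have e4 : (L h (j + 1)).1.toNat * (2 * n) ≤ 1 * (2 * n) := Nat.mul_le_mul_right _ e1
          have e5 : (4 * (j + 1) + (L h (j + 1)).1.toNat) * (2 * n) =
            4 * j * (2 * n) + 4 * (2 * n) + (L h (j + 1)).1.toNat * (2 * n) := by ring
          unfold pos
          omega
      · have hM' : M = j + 1 := by omega
        refine ⟨_, ?_, ?_, q_mem_dummy hn s L (h := h)⟩
        all_goals
          have e5 : (4 * M + 1) * (2 * n) = 4 * j * (2 * n) + 5 * (2 * n) := by rw [hM']; ring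
          unfold pos
          omega
    · refine ⟨_, ?_, ?_, q_mem_check hn s L (h := h + 1) (j := 0) hM (hL _ 0 hM)⟩
      all_goals
        have e1 := Bool.toNat_le (L (h + 1) 0).1
        have e2 := Bool.toNat_le (L (h + 1) 0).2.2
        have e3 := hL (h + 1) 0 hM
        have e4 : (4 * 0 + (L (h + 1) 0).1.toNat) * (2 * n) ≤ 1 * (2 * n) :=
          Nat.mul_le_mul_right _ (by omega)
        have e5 : (4 * M + 5) * (2 * n) = (4 * M + 1) * (2 * n) + 4 * (2 * n) := by ring
        unfold pos
        rw [heq, add_mul h 1]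
        omega

end

/-! ### Capacities -/

lemma kap_pos {cls : Cl} (hb : blk < 4 * cls.length + 5) (hc : cell < 2 * n) {r : Bool}
    (hr : role cls.length blk = some r) :
    kap n cls (pos n cls.length h blk cell) = sb (xor r (od h)) + 1 +
      (if blk < 4 * cls.length ∧ (r, cell / 2, pb cell) ∈ cls.getD (blk / 4) [] then 1 else 0) +
      (if blk = 4 * cls.length + 1 ∧ cell = 0 then 2 else 0) := by
  unfold kap hp
  rw [pos_div hb hc, pos_mod hb hc, pos_blk hc, pos_cell hc, hr]
  rfl

theorem stmt_FC : Stmt_FC := by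
  intro n cls hn hbdd hM ⟨s, hs⟩
  set M := cls.length with hMdef
  have hchoice : ∀ h j, ∃ l : Lit, j < M → l ∈ cls.getD j [] ∧ LitOK (s h) (s (h + 1)) l := by
    intro h j
    by_cases hj : j < M
    · obtain ⟨l, hl, hok⟩ := hs h (cls[j]) (List.getElem_mem _)
      refine ⟨l, fun _ => ⟨?_, hok⟩⟩
      rw [List.getD_eq_getElem _ _ hj]
      exact hl
    · exact ⟨(false, 0, false), fun h => absurd h hj⟩
  choose L hL using hchoice
  have hLn : ∀ h j, j < M → (L h j).2.1 < n := by
    intro h j hj
    have h1 := (hL h j hj).1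
    rw [List.getD_eq_getElem _ _ hj] at h1
    exact hbdd _ (List.getElem_mem _) _ h1
  refine ⟨CC hn M s L, ?_, ?_⟩
  · intro x
    obtain ⟨h, blk, cell, hb, hc, rfl⟩ := exists_pos (M := M) hn x
    rw [CC_pos hn M s L hb hc]
    unfold cont
    rcases hr : role M blk with _ | r
    · simp
    · rw [kap_pos hb hc hr]
      have hlt : cell / 2 < n := by omega
      have hsz : fs (titem hn M s h blk cell r) ≤ sb (xor r (od h)) + 1 := by
        unfold titem fs
        cases (xor (pb cell) (s (idx M h blk r) (cell / 2))) <;> simp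
      by_cases hq : qc M L h blk cell r
      · simp only [if_pos hq]
        rw [sum_pair (by simp [titem])]
        change fs (titem hn M s h blk cell r) + 2 ≤ _
        rcases hq with ⟨hq1, hq2⟩ | hq
        · obtain ⟨h1, h2⟩ := hL h (blk / 4) (by omega)
          rw [hq2] at h1 h2
          rw [if_pos ⟨hq1, h1⟩]
          have hsm : fs (titem hn M s h blk cell r) = sb (xor r (od h)) := by
            have h3 : s (idx M h blk r) (cell / 2) = pb cell := by
              unfold LitOK at h2
              simp only at h2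
              unfold idx
              cases r
              · rw [if_neg (by simp), if_neg (by omega)]
                simpa using h2
              · rw [if_pos rfl]
                simpa using h2
            unfold titem fs
            rw [h3]
            simp
          omega
        · rw [if_pos hq]
          omega
      · simp only [if_neg hq, sum_singleton]
        omega
  · rintro (⟨c, big, i⟩ | _) x
    · exact trk_window hn M s L c big i x
    · exact q_window hn s L hM hLn x

end Pool.Agent.Work.MP_a392d0_lc.FC
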