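import Pool.Agent.Work.MP_a392d0_lc.Interface

/-!
# Block RC: a filling of the bins gives a feasible schedule
-/

namespace Pool.Agent.Work.MP_a392d0_lc.RC

open Pool.Agent.Work.MP_a392d0_lc Finset

variable {J : Type}

/-- Starting position of block `x`. -/
def st (B : ℕ → List J) (x : ℕ) : ℕ := ∑ y ∈ range x, (B y).length

lemma st_succ (B : ℕ → List J) (x : ℕ) : st B (x + 1) = st B x + (B x).length := by
  simp [st, sum_range_succ]

lemma st_mono {B : ℕ → List J} : Monotone (st B) := by
  refine monotone_nat_of_le_succ fun x => ?_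
  rw [st_succ]; omega

lemma cover {B : ℕ → List J} (hB : ∀ x, B x ≠ []) :
    ∀ t, ∃ x j, j < (B x).length ∧ t = st B x + j := by
  intro t
  induction t with
  | zero => exact ⟨0, 0, List.length_pos_iff.mpr (hB 0), by simp [st]⟩
  | succ t ih =>
    obtain ⟨x, j, hj, rfl⟩ := ih
    by_cases h : j + 1 < (B x).length
    · exact ⟨x, j + 1, h, by omega⟩
    · exact ⟨x + 1, 0, List.length_pos_iff.mpr (hB _), by rw [st_succ]; omega⟩

lemma inj {B : ℕ → List J} {x y j k : ℕ} (hj : j < (B x).length)
    (hk : k < (B y).length) (h : st B x + j = st B y + k) : x = y ∧ j = k := by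
  rcases lt_trichotomy x y with hxy | hxy | hxy
  · have := st_mono (B := B) (Nat.succ_le_of_lt hxy)
    rw [Nat.succ_eq_add_one, st_succ] at this
    omega
  · subst hxy; omega
  · have := st_mono (B := B) (Nat.succ_le_of_lt hxy)
    rw [Nat.succ_eq_add_one, st_succ] at this
    omega

lemma exists_concat (B : ℕ → List J) (hB : ∀ x, B x ≠ []) :
    ∃ S : ℕ → J, ∀ x j (h : j < (B x).length), S (st B x + j) = (B x)[j] := by
  choose X Y hY ht using cover hB
  refine ⟨fun t => (B (X t))[Y t]'(hY t), fun x j h => ?_⟩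
  obtain ⟨h1, h2⟩ := inj (hY (st B x + j)) h (ht (st B x + j)).symm
  have key : ∀ x' j' (h' : j' < (B x').length), x' = x → j' = j →
      (B x')[j'] = (B x)[j] := by
    rintro x' j' h' rfl rfl; rfl
  exact key _ _ _ h1 h2

lemma sum_block {B : ℕ → List J} {S : ℕ → J}
    (hS : ∀ x j (h : j < (B x).length), S (st B x + j) = (B x)[j]) (g : J → ℕ) (x : ℕ) :
    ∑ t ∈ range (st B (x + 1)), g (S t) = ∑ t ∈ range (st B x), g (S t) + ((B x).map g).sum := by
  rw [st_succ, sum_range_add]
  congr 1
  rw [Finset.sum_range, ← Fin.sum_univ_fun_getElem]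
  exact sum_congr rfl fun i _ => by rw [hS x i i.2]

/-- A criterion for feasibility. -/
lemma feas_of_next {f p : J → ℕ} (S : ℕ → J) (h1 : ∀ i, ∃ t, S t = i)
    (h2 : ∀ a, ∃ b, a < b ∧ S b = S a ∧
      ∑ t ∈ range (b + 1), p (S t) ≤ ∑ t ∈ range (a + 1), p (S t) + f (S a)) : FeasJ f p := by
  refine ⟨S, fun i => ⟨fun t => ?_, fun a b hab ha hb hno => ?_⟩⟩
  · induction t with
    | zero => obtain ⟨t, ht⟩ := h1 i; exact ⟨t, Nat.zero_le _, ht⟩
    | succ t ih =>
      obtain ⟨b, hb, hi⟩ := ih
      obtain ⟨b', hb', hi', _⟩ := h2 b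
      exact ⟨b', by omega, by rw [hi', hi]⟩
  · obtain ⟨b', hb', hi', hs⟩ := h2 a
    have hbb : b ≤ b' := by
      by_contra hcon
      exact hno b' hb' (by omega) (by rw [hi', ha])
    have e1 : ∑ t ∈ Ioc a b, p (S t) + ∑ t ∈ range (a + 1), p (S t) =
        ∑ t ∈ range (b + 1), p (S t) := by
      have : Ioc a b = Ico (a + 1) (b + 1) := by
        ext t; simp only [mem_Ioc, mem_Ico]; omega
      rw [this, add_comm, sum_range_add_sum_Ico _ (by omega : a + 1 ≤ b + 1)]
    have e2 : ∑ t ∈ range (b + 1), p (S t) ≤ ∑ t ∈ range (b' + 1), p (S t) :=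
      sum_le_sum_of_subset (by intro t; simp only [mem_range]; omega)
    rw [← ha]
    omega

theorem stmt_RC : Stmt_RC := by
  intro N I _ _ c h K s w hN hK hc hw C hcap hwin
  have hNh : h ≤ (N + 2) * h := Nat.le_mul_of_pos_left h (by omega)
  have hm : ∀ x, x % N < N := fun x => Nat.mod_lt x (by omega)
  have hKx : ∀ x, K (x % N) ≤ h := fun x => hK _ (hm x)
  let B : ℕ → List (RJob N I) := fun x =>
    .a :: .r ⟨x % N, hm x⟩ :: (C x).toList.map .item
  have hB : ∀ x, B x ≠ [] := fun x => by simp [B]
  have hlen : ∀ x, 2 ≤ (B x).length := fun x => by simp [B]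
  obtain ⟨S, hS⟩ := exists_concat B hB
  set W : ℕ → ℕ := fun t => ∑ u ∈ range t, rp c K s (S u) with hWdef
  have hWs : ∀ t, W (t + 1) = W t + rp c K s (S t) := fun t => by
    simp [hWdef, sum_range_succ]
  have hWm : Monotone W := monotone_nat_of_le_succ fun t => by rw [hWs]; omega
  have hSa : ∀ x, S (st B x) = .a := fun x => by
    have := hS x 0 (by have := hlen x; omega)
    simpa [B] using this
  have hSr : ∀ x, S (st B x + 1) = .r ⟨x % N, hm x⟩ := fun x => by
    have := hS x 1 (by have := hlen x; omega)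
    simpa [B] using this
  have hWa : ∀ x, W (st B x + 1) = W (st B x) + c := fun x => by rw [hWs, hSa]; rfl
  have hWr : ∀ x, W (st B x + 2) = W (st B x) + c + (c - K (x % N)) := fun x => by
    rw [show st B x + 2 = st B x + 1 + 1 from rfl, hWs, hSr, hWa]; rfl
  have hWb : ∀ x, W (st B (x + 1)) ≤ W (st B x) + 2 * c := fun x => by
    have h1 := sum_block hS (rp c K s) x
    have h2 : ((B x).map (rp c K s)).sum = c + ((c - K (x % N)) + ∑ i ∈ C x, s i) := by
      simp only [B, List.map_cons, List.sum_cons, List.map_map]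
      congr 2
      rw [← Finset.sum_map_toList]
      rfl
    have h3 := hcap x
    have h4 := hKx x
    simp only [hWdef]
    rw [h1, h2]
    omega
  have hWn : ∀ x n, W (st B (x + n)) ≤ W (st B x) + n * (2 * c) := fun x n => by
    induction n with
    | zero => simp
    | succ n ih =>
      have := hWb (x + n)
      rw [← add_assoc, Nat.succ_mul]
      omega
  have hitem : ∀ x i, i ∈ C x → ∃ j, 2 ≤ j ∧ j < (B x).length ∧ S (st B x + j) = .item i := by
    intro x i hi
    obtain ⟨k, hk, hki⟩ := List.getElem_of_mem (Finset.mem_toList.mpr hi)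
    have hlt : k + 2 < (B x).length := by simp only [B, List.length_cons, List.length_map]; omega
    refine ⟨k + 2, by omega, hlt, ?_⟩
    rw [hS x (k + 2) hlt]
    simp [B, hki]
  refine feas_of_next S ?_ ?_
  · rintro (_ | t | i)
    · exact ⟨_, hSa 0⟩
    · refine ⟨_, (hSr t).trans ?_⟩
      congr 1
      exact Fin.ext (Nat.mod_eq_of_lt t.2)
    · obtain ⟨y, -, -, hy⟩ := hwin i 0
      obtain ⟨j, -, -, hj⟩ := hitem y i hy
      exact ⟨_, hj⟩
  · intro a
    obtain ⟨x, j, hj, rfl⟩ := cover hB a
    rcases j with _ | _ | j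
    · -- separator
      refine ⟨st B (x + 1), ?_, ?_, ?_⟩
      · rw [st_succ]; omega
      · simp only [add_zero]; rw [hSa, hSa]
      · simp only [add_zero]
        rw [hSa]
        change W (st B (x + 1) + 1) ≤ W (st B x + 1) + 2 * c
        rw [hWa, hWa]
        have := hWb x
        omega
    · -- big job
      have hxN : (x + N) % N = x % N := Nat.add_mod_right x N
      refine ⟨st B (x + N) + 1, ?_, ?_, ?_⟩
      · have := st_mono (B := B) (by omega : x + 1 ≤ x + N)
        rw [st_succ] at this
        omega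
      · simp only [zero_add]
        rw [hSr, hSr]
        congr 1
        exact Fin.ext hxN
      · simp only [zero_add]
        rw [hSr]
        change W (st B (x + N) + 2) ≤ W (st B x + 2) + (N * (2 * c) + h)
        rw [hWr, hWr, hxN]
        have := hWn x N
        omega
    · -- item
      have hlt : j + 2 < (B x).length := hj
      have hj' : j < (C x).toList.length := by
        have := hlt
        simp only [B, List.length_cons, List.length_map] at this
        omega
      have hSi : S (st B x + (j + 2)) = .item ((C x).toList[j]) := by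
        rw [hS x (j + 2) hlt]
        simp [B]
      set i := (C x).toList[j] with hi
      obtain ⟨z, hz1, hz2, hz⟩ := hwin i (x + 1)
      obtain ⟨k, hk2, hk, hSk⟩ := hitem z i hz
      have hm1 := st_mono (B := B) hz1
      rw [st_succ] at hm1
      refine ⟨st B z + k, by omega, ?_, ?_⟩
      · rw [hSk]; exact hSi.symm
      · have hSi' : S (st B x + (j + 1 + 1)) = .item i := hSi
        rw [hSi']
        change W (st B z + k + 1) ≤ W (st B x + (j + 1 + 1) + 1) + (w i * (2 * c) + h)
        have h1 : W (st B z + k + 1) ≤ W (st B (z + 1)) := hWm (by rw [st_succ]; omega)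
        obtain ⟨n, rfl⟩ : ∃ n, z = x + n := ⟨z - x, by omega⟩
        have h2 := hWn x (n + 1)
        have h3 : W (st B x + 2) ≤ W (st B x + (j + 1 + 1) + 1) := hWm (by omega)
        have h4 := hWr x
        have h5 := hKx x
        have h6 : n * (2 * c) ≤ w i * (2 * c) := Nat.mul_le_mul_right _ (by omega)
        rw [← add_assoc, Nat.succ_mul] at h2
        omega

end Pool.Agent.Work.MP_a392d0_lc.RC
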